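import Pool.Agent.Lib.MP_602b76_co_Plane.Chains

/-!
# Layers of a finite set over a quotient
-/

namespace Pool.Agent.Lib.MP_602b76_co_Plane

open Finset

variable {H G : Type*} [AddCommGroup H] [DecidableEq H] [AddCommGroup G] [DecidableEq G]

/-- The number of points of `S` over `c`. -/
def hgt (π : H →+ G) (S : Finset H) (c : G) : ℕ := (S.filter (fun x => π x = c)).card

/-- The layer number `t`. -/
def layer (π : H →+ G) (S : Finset H) (t : ℕ) : Finset G :=
  (S.image π).filter (fun c => t < hgt π S c)

omit [DecidableEq H] in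
theorem hgt_le (π : H →+ G) (S : Finset H) (c : G) : hgt π S c ≤ S.card :=
  card_le_card (filter_subset _ _)

omit [DecidableEq H] in
theorem mem_layer {π : H →+ G} {S : Finset H} {t : ℕ} {c : G} :
    c ∈ layer π S t ↔ t < hgt π S c := by
  unfold layer
  rw [mem_filter]
  constructor
  · exact fun h => h.2
  · intro h
    refine ⟨?_, h⟩
    have h1 : 0 < hgt π S c := by omega
    unfold hgt at h1
    rw [Finset.card_pos] at h1
    obtain ⟨x, hx⟩ := h1
    rw [mem_filter] at hx
    rw [mem_image]
    exact ⟨x, hx.1, hx.2⟩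

omit [DecidableEq H] in
theorem sum_card_layer (π : H →+ G) (S : Finset H) :
    ∑ t ∈ range S.card, (layer π S t).card = S.card := by
  have h1 : ∀ t, (layer π S t).card = ∑ c ∈ S.image π, if t < hgt π S c then 1 else 0 := by
    intro t
    unfold layer
    rw [Finset.card_filter]
  simp only [h1]
  rw [Finset.sum_comm]
  have h2 : ∀ c ∈ S.image π, (∑ t ∈ range S.card, if t < hgt π S c then 1 else 0) =
      (S.filter (fun x => π x = c)).card := by
    intro c _
    rw [← Finset.card_filter]
    have : (range S.card).filter (fun t => t < hgt π S c) = range (hgt π S c) := by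
      ext t
      rw [mem_filter, mem_range, mem_range]
      have := hgt_le π S c
      constructor
      · exact fun h => h.2
      · intro h
        exact ⟨by omega, h⟩
    rw [this, card_range]
    rfl
  rw [Finset.sum_congr rfl h2]
  exact (Finset.card_eq_sum_card_image (⇑π) S).symm

theorem hgt_sub_le (π : H →+ G) (S : Finset H) (v : H) (c : G) :
    hgt π S c - hgt π S (c + π v) ≤
      ((S.filter (fun x => x + v ∉ S)).filter (fun x => π x = c)).card := by
  have h1 : hgt π S c ≤ ((S.filter (fun x => x + v ∉ S)).filter (fun x => π x = c)).card +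
      hgt π S (c + π v) := by
    unfold hgt
    have h2 : S.filter (fun x => π x = c) ⊆
        ((S.filter (fun x => x + v ∉ S)).filter (fun x => π x = c)) ∪
          ((S.filter (fun x => π x = c + π v)).image (fun x => x - v)) := by
      intro x hx
      rw [mem_filter] at hx
      rw [mem_union]
      by_cases h : x + v ∈ S
      · right
        rw [mem_image]
        refine ⟨x + v, ?_, by abel⟩
        rw [mem_filter]
        refine ⟨h, ?_⟩
        rw [map_add, hx.2]
      · left
        rw [mem_filter, mem_filter]
        exact ⟨⟨hx.1, h⟩, hx.2⟩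
    exact le_trans (card_le_card h2) (le_trans (card_union_le _ _)
      (Nat.add_le_add_left card_image_le _))
  omega

theorem sum_ch_layer (π : H →+ G) (S : Finset H) (v : H) :
    ∑ t ∈ range S.card, ch (π v) (layer π S t) ≤ ch v S := by
  have h1 : ∀ t, ch (π v) (layer π S t) =
      ∑ c ∈ S.image π, if hgt π S (c + π v) ≤ t ∧ t < hgt π S c then 1 else 0 := by
    intro t
    unfold ch
    rw [← Finset.card_filter]
    congr 1
    ext c
    rw [mem_filter, mem_filter, mem_layer, mem_layer]
    constructor
    · rintro ⟨h, h'⟩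
      refine ⟨?_, by omega, h⟩
      have h3 := (mem_layer (π := π) (S := S) (t := t) (c := c)).2 h
      unfold layer at h3
      rw [mem_filter] at h3
      exact h3.1
    · rintro ⟨_, h, h'⟩
      exact ⟨h', by omega⟩
  simp only [h1]
  rw [Finset.sum_comm]
  have h2 : ∀ c ∈ S.image π,
      (∑ t ∈ range S.card, if hgt π S (c + π v) ≤ t ∧ t < hgt π S c then 1 else 0) ≤
      ((S.filter (fun x => x + v ∉ S)).filter (fun x => π x = c)).card := by
    intro c _
    refine le_trans ?_ (hgt_sub_le π S v c)
    rw [← Finset.card_filter]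
    have : (range S.card).filter (fun t => hgt π S (c + π v) ≤ t ∧ t < hgt π S c) ⊆
        Ico (hgt π S (c + π v)) (hgt π S c) := by
      intro t ht
      rw [mem_filter] at ht
      rw [mem_Ico]
      exact ht.2
    refine le_trans (card_le_card this) ?_
    rw [Nat.card_Ico]
  refine le_trans (Finset.sum_le_sum h2) ?_
  rw [Finset.sum_card_fiberwise_eq_card_filter]
  exact card_filter_le _ _

/-- **Lower bound.** If `S` meets at most `C` classes and `(p + q) ^ 2 ≤ 4 C`, then
`(p + q) |S| ≤ C * chains`. -/
theorem lower {u v : H} {p q : ℕ} (π : H →+ G) (h : Rel2 (π u) (π v) p q) {S : Finset H} {C : ℕ}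
    (hC : (S.image π).card ≤ C) (hC4 : (p + q) ^ 2 ≤ 4 * C) :
    (p + q) * S.card ≤ C * (ch u S + ch v S) := by
  have key : ∀ t, (p + q) * (layer π S t).card ≤
      C * (ch (π u) (layer π S t) + ch (π v) (layer π S t)) := by
    intro t
    have h0 : (layer π S t).card ≤ C := le_trans (card_le_card (filter_subset _ _)) hC
    obtain ⟨m, hm⟩ : ∃ m, m = (layer π S t).card := ⟨_, rfl⟩
    obtain ⟨x, hx⟩ : ∃ x, x = ch (π u) (layer π S t) := ⟨_, rfl⟩
    obtain ⟨y, hy⟩ : ∃ y, y = ch (π v) (layer π S t) := ⟨_, rfl⟩
    have hprof := h.profile (layer π S t)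
    rw [← hm] at h0
    rw [← hm, ← hx, ← hy] at hprof
    rw [← hm, ← hx, ← hy]
    by_cases hE : p + q ≤ x + y
    · calc (p + q) * m ≤ (x + y) * C := Nat.mul_le_mul hE h0
        _ = C * (x + y) := mul_comm _ _
    · rcases hprof with h1 | h1
      · push Not at hE
        have h2 : 4 * (x * y) ≤ (x + y) ^ 2 := by
          zify
          nlinarith [sq_nonneg ((x : ℤ) - y)]
        have h3 : 4 * ((p + q) * m) ≤ 4 * (C * (x + y)) := by
          calc 4 * ((p + q) * m) = (p + q) * (4 * m) := by ring
            _ ≤ (p + q) * (x + y) ^ 2 := Nat.mul_le_mul_left _ (by omega)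
            _ = (p + q) * (x + y) * (x + y) := by ring
            _ ≤ (p + q) * (p + q) * (x + y) :=
                Nat.mul_le_mul_right _ (Nat.mul_le_mul_left _ hE.le)
            _ = (p + q) ^ 2 * (x + y) := by ring
            _ ≤ 4 * C * (x + y) := Nat.mul_le_mul_right _ hC4
            _ = 4 * (C * (x + y)) := by ring
        omega
      · exact absurd h1 hE
  calc (p + q) * S.card = ∑ t ∈ range S.card, (p + q) * (layer π S t).card := by
        rw [← Finset.mul_sum, sum_card_layer]
    _ ≤ ∑ t ∈ range S.card, C * (ch (π u) (layer π S t) + ch (π v) (layer π S t)) :=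
        Finset.sum_le_sum (fun t _ => key t)
    _ = C * (∑ t ∈ range S.card, ch (π u) (layer π S t) +
          ∑ t ∈ range S.card, ch (π v) (layer π S t)) := by
        rw [← Finset.mul_sum, Finset.sum_add_distrib]
    _ ≤ C * (ch u S + ch v S) :=
        Nat.mul_le_mul_left _ (Nat.add_le_add (sum_ch_layer π S u) (sum_ch_layer π S v))

end Pool.Agent.Lib.MP_602b76_co_Plane
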