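import Mathlib

/-!
# Three generators with one relation: the final inequality
-/

namespace Pool.Agent.Lib.MP_602b76_co_Plane

/-- The polynomial inequality behind the contradiction. -/
theorem poly_pos {E : ℝ} (hE : 300 ≤ E) :
    3 / 10 * E ^ 2 * (7 / 100 * E ^ 2 - 24 / 5 * E + 2) * (1 / 20 * E ^ 2 + 19 / 20 * E + 3 / 2) <
      E * (9 / 20 * E - 19 / 20) * (19 / 400 * E ^ 2 - 9 / 10 * E - 1) *
        (1 / 20 * E ^ 2 - 9 / 10 * E - 3 / 4) := by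
  obtain ⟨s, rfl⟩ : ∃ s, E = s + 300 := ⟨E - 300, by ring⟩
  have hs : 0 ≤ s := by linarith
  rw [← sub_pos]
  ring_nf
  positivity

theorem arith {E r a k C F n : ℝ} (hr : 0 ≤ r) (hE : 30 * r + 300 ≤ E)
    (ha1 : 9 / 20 * E - 19 / 20 ≤ a) (ha2 : a ≤ 9 / 20 * E)
    (hk1 : 3 / 10 * E - 9 / 10 ≤ k) (hk2 : k ≤ 3 / 10 * E)
    (hC1 : E ^ 2 ≤ 4 * C) (hC2 : 4 * C ≤ E ^ 2 + 3) (hF : 0 ≤ F)
    (hL : E * n ≤ C * F) (hU1 : a * (F + C) ≤ a * (a + 1) ^ 2 + 2 * n)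
    (hU2 : k * (F + C) ≤ k ^ 2 * E + n + (2 * r + 4) * k ^ 2 + 2 * k) : False := by
  have hE3 : 300 ≤ E := by linarith
  have hE0 : 0 ≤ E := by linarith
  have ha0 : 0 ≤ a := by linarith
  have hk0 : 0 ≤ k := by linarith
  -- the two bounds for `F`
  have h1 : E * a * (C - (a + 1) ^ 2) ≤ F * (2 * C - a * E) := by
    have := mul_le_mul_of_nonneg_left hU1 hE0
    nlinarith
  have h2 : F * (k * E - C) ≤ E * k * (k * E + (2 * r + 4) * k + 2 - C) := by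
    have := mul_le_mul_of_nonneg_left hU2 hE0
    nlinarith
  -- bounds for the factors
  have ha3 : a * E ≤ 9 / 20 * E ^ 2 := by nlinarith
  have ha4 : 9 / 20 * E ^ 2 - 19 / 20 * E ≤ a * E := by nlinarith
  have hk3 : 3 / 10 * E ^ 2 - 9 / 10 * E ≤ k * E := by nlinarith
  have hk4 : k * E ≤ 3 / 10 * E ^ 2 := by nlinarith
  have hx0 : 0 ≤ 2 * C - a * E := by nlinarith
  have hx1 : 2 * C - a * E ≤ 1 / 20 * E ^ 2 + 19 / 20 * E + 3 / 2 := by nlinarith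
  have hy1 : 1 / 20 * E ^ 2 - 9 / 10 * E - 3 / 4 ≤ k * E - C := by nlinarith
  have hy0 : 0 ≤ 1 / 20 * E ^ 2 - 9 / 10 * E - 3 / 4 := by nlinarith
  have ha5 : (a + 1) ^ 2 ≤ (9 / 20 * E + 1) ^ 2 := by
    apply pow_le_pow_left₀ (by linarith)
    linarith
  have hz1 : 19 / 400 * E ^ 2 - 9 / 10 * E - 1 ≤ C - (a + 1) ^ 2 := by nlinarith
  have hz0 : 0 ≤ 19 / 400 * E ^ 2 - 9 / 10 * E - 1 := by nlinarith
  have hX : E * (9 / 20 * E - 19 / 20) * (19 / 400 * E ^ 2 - 9 / 10 * E - 1) ≤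
      E * a * (C - (a + 1) ^ 2) := by
    apply mul_le_mul _ hz1 hz0 (by positivity)
    exact mul_le_mul_of_nonneg_left (by linarith) hE0
  have hX0 : 0 ≤ E * (9 / 20 * E - 19 / 20) * (19 / 400 * E ^ 2 - 9 / 10 * E - 1) :=
    mul_nonneg (mul_nonneg hE0 (by linarith)) hz0
  have hr2 : (2 * r + 4) * k ≤ 1 / 50 * E ^ 2 - 24 / 5 * E := by
    have h3 : 2 * r + 4 ≤ 1 / 15 * E - 16 := by linarith
    have h4 : (2 * r + 4) * k ≤ (1 / 15 * E - 16) * (3 / 10 * E) :=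
      mul_le_mul h3 hk2 hk0 (by linarith)
    nlinarith
  have hw : k * E + (2 * r + 4) * k + 2 - C ≤ 7 / 100 * E ^ 2 - 24 / 5 * E + 2 := by nlinarith
  have hw0 : 0 ≤ 7 / 100 * E ^ 2 - 24 / 5 * E + 2 := by nlinarith
  have hY : E * k * (k * E + (2 * r + 4) * k + 2 - C) ≤
      3 / 10 * E ^ 2 * (7 / 100 * E ^ 2 - 24 / 5 * E + 2) := by
    have h5 : E * k * (k * E + (2 * r + 4) * k + 2 - C) ≤
        E * k * (7 / 100 * E ^ 2 - 24 / 5 * E + 2) :=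
      mul_le_mul_of_nonneg_left hw (mul_nonneg hE0 hk0)
    have h6 : E * k * (7 / 100 * E ^ 2 - 24 / 5 * E + 2) ≤
        3 / 10 * E ^ 2 * (7 / 100 * E ^ 2 - 24 / 5 * E + 2) :=
      mul_le_mul_of_nonneg_right (by nlinarith) hw0
    exact le_trans h5 h6
  have hY0 : 0 ≤ 3 / 10 * E ^ 2 * (7 / 100 * E ^ 2 - 24 / 5 * E + 2) := by positivity
  have h7 := poly_pos hE3
  -- X y ≤ F x y ≤ Y x
  have h8 : E * (9 / 20 * E - 19 / 20) * (19 / 400 * E ^ 2 - 9 / 10 * E - 1) *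
      (1 / 20 * E ^ 2 - 9 / 10 * E - 3 / 4) ≤ F * (2 * C - a * E) * (k * E - C) := by
    apply mul_le_mul (le_trans hX h1) hy1 hy0
    exact mul_nonneg hF hx0
  have h9 : F * (2 * C - a * E) * (k * E - C) ≤
      3 / 10 * E ^ 2 * (7 / 100 * E ^ 2 - 24 / 5 * E + 2) *
        (1 / 20 * E ^ 2 + 19 / 20 * E + 3 / 2) := by
    have h10 : F * (2 * C - a * E) * (k * E - C) = F * (k * E - C) * (2 * C - a * E) := by ring
    rw [h10]
    exact mul_le_mul (le_trans h2 hY) hx1 hx0 hY0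
  linarith

end Pool.Agent.Lib.MP_602b76_co_Plane
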