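import Pool.Agent.Lib.MP_602b76_co_Plane.Chains

/-!
# Three generators with one relation: boxes
-/

namespace Pool.Agent.Lib.MP_602b76_co_Plane

open Finset

variable {H : Type*} [AddCommGroup H] [DecidableEq H]

/-- `u`, `v`, `b` generate the group, with the single relation `p u + q v = r b`. -/
structure Rel3 {H : Type*} [AddCommGroup H] (u v b : H) (p q r : ℕ) : Prop where
  gen : ∀ x : H, ∃ i j k : ℤ, x = i • u + j • v + k • b
  rel : ∀ i j k : ℤ, i • u + j • v + k • b = 0 → ∃ t : ℤ, i = t * p ∧ j = t * q ∧ k = -(t * r)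
  base : (p : ℤ) • u + (q : ℤ) • v = (r : ℤ) • b

/-- Failing indices: if the first `n` points are `f 0, ..., f (n - 1)` and every index outside the
set `A` has its translate in the set, there are at most `A.card` chains. -/
theorem ch_image_le {f : ℕ → H} {n : ℕ} {v : H} (A : Finset ℕ)
    (hA : ∀ m < n, m ∉ A → ∃ m' < n, f m' = f m + v) :
    ch v ((range n).image f) ≤ A.card := by
  unfold ch
  have hsub : ((range n).image f).filter (fun x => x + v ∉ (range n).image f) ⊆ A.image f := by
    intro x hx
    rw [mem_filter, mem_image] at hx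
    obtain ⟨⟨m, hm, rfl⟩, hx2⟩ := hx
    rw [mem_range] at hm
    rw [mem_image]
    refine ⟨m, ?_, rfl⟩
    by_contra hmA
    obtain ⟨m', hm', he⟩ := hA m hm hmA
    apply hx2
    rw [mem_image]
    exact ⟨m', mem_range.2 hm', he⟩
  exact le_trans (card_le_card hsub) card_image_le

/-- The point with number `m` of the box of width `a`. -/
def boxPt (u v b : H) (a m : ℕ) : H :=
  ((m % a : ℕ) : ℤ) • u + ((m / a % a : ℕ) : ℤ) • v + ((m / a / a : ℕ) : ℤ) • b

variable {u v b : H} {p q r : ℕ}

omit [DecidableEq H] in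
theorem boxPt_inj (h : Rel3 u v b p q r) {a : ℕ} (ha : 0 < a) (hap : a ≤ p ∨ a ≤ q) :
    Function.Injective (boxPt u v b a) := by
  intro m m' he
  unfold boxPt at he
  obtain ⟨i, hi⟩ : ∃ i, i = m % a := ⟨_, rfl⟩
  obtain ⟨j, hj⟩ : ∃ j, j = m / a % a := ⟨_, rfl⟩
  obtain ⟨k, hk⟩ : ∃ k, k = m / a / a := ⟨_, rfl⟩
  obtain ⟨i', hi'⟩ : ∃ i, i = m' % a := ⟨_, rfl⟩
  obtain ⟨j', hj'⟩ : ∃ j, j = m' / a % a := ⟨_, rfl⟩
  obtain ⟨k', hk'⟩ : ∃ k, k = m' / a / a := ⟨_, rfl⟩
  have i1 : i < a := by rw [hi]; exact Nat.mod_lt _ ha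
  have i2 : i' < a := by rw [hi']; exact Nat.mod_lt _ ha
  have j1 : j < a := by rw [hj]; exact Nat.mod_lt _ ha
  have j2 : j' < a := by rw [hj']; exact Nat.mod_lt _ ha
  rw [← hi, ← hj, ← hk, ← hi', ← hj', ← hk'] at he
  have h1 : ((i : ℤ) - i') • u + ((j : ℤ) - j') • v + ((k : ℤ) - k') • b = 0 := by
    have := sub_eq_zero.2 he
    rw [← this]
    module
  obtain ⟨t, h2, h3, h4⟩ := h.rel _ _ _ h1
  have ht : t = 0 := by
    by_contra hne
    rcases hap with hap | hap
    · rcases lt_or_gt_of_ne hne with hlt | hgt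
      · nlinarith
      · nlinarith
    · rcases lt_or_gt_of_ne hne with hlt | hgt
      · nlinarith
      · nlinarith
  rw [ht] at h2 h3 h4
  have e1 : i = i' := by omega
  have e2 : j = j' := by omega
  have e3 : k = k' := by omega
  have m1 := Nat.div_add_mod m a
  have m2 := Nat.div_add_mod (m / a) a
  have m3 := Nat.div_add_mod m' a
  have m4 := Nat.div_add_mod (m' / a) a
  rw [← hj, ← hk] at m2
  rw [← hj', ← hk', ← e2, ← e3] at m4
  rw [← hi] at m1
  rw [← hi', ← e1] at m3
  rw [← m1, ← m3, ← m2, ← m4]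

theorem card_box (h : Rel3 u v b p q r) {a : ℕ} (ha : 0 < a) (hap : a ≤ p ∨ a ≤ q) (n : ℕ) :
    ((range n).image (boxPt u v b a)).card = n := by
  rw [card_image_of_injective _ (boxPt_inj h ha hap), card_range]

theorem ch_box_b {a : ℕ} (ha : 0 < a) (n : ℕ) :
    ch b ((range n).image (boxPt u v b a)) ≤ a * a := by
  refine le_trans (ch_image_le (Ico (n - a * a) n) ?_) (by rw [Nat.card_Ico]; omega)
  intro m hm hmA
  rw [mem_Ico] at hmA
  refine ⟨m + a * a, by omega, ?_⟩
  unfold boxPt
  have e1 : (m + a * a) % a = m % a := by simp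
  have e2 : (m + a * a) / a = m / a + a := by
    rw [Nat.add_mul_div_left _ _ ha]
  rw [e1, e2, Nat.add_mod_right, Nat.add_div_right _ ha]
  push_cast
  module

theorem ch_box_u {a : ℕ} (ha : 0 < a) (n : ℕ) :
    ch u ((range n).image (boxPt u v b a)) ≤ n / a + 1 := by
  refine le_trans (ch_image_le ((range (n / a)).image (fun k => a * k + (a - 1)) ∪ {n - 1}) ?_) ?_
  · intro m hm hmA
    rw [mem_union, mem_singleton, mem_image, not_or] at hmA
    obtain ⟨h1, h2⟩ := hmA
    have hdm := Nat.div_add_mod m a
    have hml := Nat.mod_lt m ha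
    have h3 : m % a + 1 < a := by
      by_contra hge
      apply h1
      refine ⟨m / a, ?_, by omega⟩
      rw [mem_range, Nat.div_lt_iff_lt_mul ha]
      have h4 : a * (n / a) + n % a = n := Nat.div_add_mod n a
      have h5 : m % a = a - 1 := by omega
      have h6 : m + 1 ≤ n := hm
      have h7 : a * (m / a + 1) ≤ n := by
        rw [mul_add, mul_one]
        omega
      have h8 : m / a + 1 ≤ n / a := by
        rw [Nat.le_div_iff_mul_le ha, mul_comm]
        exact h7
      have h9 : a * (m / a + 1) ≤ a * (n / a) := Nat.mul_le_mul_left _ h8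
      rw [mul_add, mul_one] at h9
      rw [mul_comm (n / a)]
      omega
    refine ⟨m + 1, by omega, ?_⟩
    have e1 : (m + 1) % a = m % a + 1 := by
      rw [← Nat.mod_eq_of_lt h3]
      simp
    have e2 : (m + 1) / a = m / a := by
      have h5 := Nat.div_add_mod (m + 1) a
      rw [e1] at h5
      exact Nat.eq_of_mul_eq_mul_left ha (by omega)
    unfold boxPt
    rw [e1, e2]
    push_cast
    module
  · refine le_trans (card_union_le _ _) ?_
    rw [card_singleton]
    exact Nat.add_le_add_right (le_trans card_image_le (by rw [card_range])) 1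

theorem ch_box_v {a : ℕ} (ha : 0 < a) (n : ℕ) :
    ch v ((range n).image (boxPt u v b a)) ≤ n / a + 2 * a := by
  refine le_trans (ch_image_le (((range (n / a / a + 1)) ×ˢ (range a)).image
    (fun s => a * (a * s.1 + (a - 1)) + s.2) ∪ Ico (n - a) n) ?_) ?_
  · intro m hm hmA
    rw [mem_union, mem_Ico, mem_image, not_or] at hmA
    obtain ⟨h1, h2⟩ := hmA
    have hdm := Nat.div_add_mod m a
    have hml := Nat.mod_lt m ha
    have hdm' := Nat.div_add_mod (m / a) a
    have hml' := Nat.mod_lt (m / a) ha
    have h3 : m / a % a + 1 < a := by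
      by_contra hge
      apply h1
      refine ⟨(m / a / a, m % a), ?_, ?_⟩
      · rw [mem_product, mem_range, mem_range]
        refine ⟨?_, hml⟩
        have : m / a / a ≤ n / a / a := Nat.div_le_div_right (Nat.div_le_div_right hm.le)
        simp only
        omega
      · simp only
        have e : a * (m / a / a) + (a - 1) = m / a := by omega
        rw [e]
        exact hdm
    refine ⟨m + a, by omega, ?_⟩
    have e0 : (m + a) % a = m % a := by simp
    have e0' : (m + a) / a = m / a + 1 := Nat.add_div_right _ ha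
    have e1 : (m / a + 1) % a = m / a % a + 1 := by
      rw [← Nat.mod_eq_of_lt h3]
      simp
    have e2 : (m / a + 1) / a = m / a / a := by
      have h5 := Nat.div_add_mod (m / a + 1) a
      rw [e1] at h5
      exact Nat.eq_of_mul_eq_mul_left ha (by omega)
    unfold boxPt
    rw [e0, e0', e1, e2]
    push_cast
    module
  · refine le_trans (card_union_le _ _) ?_
    have h1 : (((range (n / a / a + 1)) ×ˢ (range a)).image
        (fun s => a * (a * s.1 + (a - 1)) + s.2)).card ≤ (n / a / a + 1) * a := by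
      refine le_trans card_image_le ?_
      rw [card_product, card_range, card_range]
    have h2 : (Ico (n - a) n).card ≤ a := by
      rw [Nat.card_Ico]
      omega
    have h3 : n / a / a * a ≤ n / a := Nat.div_mul_le_self _ _
    have h4 : (n / a / a + 1) * a = n / a / a * a + a := by ring
    omega

/-- The total number of chains. -/
def tau (u v b : H) (S : Finset H) : ℕ := ch u S + ch v S + ch b S

theorem tau_box (u v b : H) {a : ℕ} (ha : 0 < a) (n : ℕ) :
    tau u v b ((range n).image (boxPt u v b a)) ≤ a * a + 2 * (n / a) + 2 * a + 1 := by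
  have h1 := ch_box_u (u := u) (v := v) (b := b) ha n
  have h2 := ch_box_v (u := u) (v := v) (b := b) ha n
  have h3 := ch_box_b (u := u) (v := v) (b := b) ha n
  unfold tau
  omega

end Pool.Agent.Lib.MP_602b76_co_Plane
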