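import Mathlib

/-!
# Chains in abelian groups

For a finite subset `S` of an abelian group and a step `v`, `ch v S` is the number of points of `S`
whose translate by `v` is not in `S`.
-/

namespace Pool.Agent.Lib.MP_602b76_co_Plane

open Finset

variable {H : Type*} [AddCommGroup H] [DecidableEq H]

/-- The number of points of `S` whose translate by `v` is not in `S`. -/
def ch (v : H) (S : Finset H) : ℕ := (S.filter (fun x => x + v ∉ S)).card

/-- The number of adjacent pairs. -/
def adj (v : H) (S : Finset H) : ℕ := (S.filter (fun x => x + v ∈ S)).card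

theorem adj_add_ch (v : H) (S : Finset H) : adj v S + ch v S = S.card := by
  unfold adj ch
  exact Finset.card_filter_add_card_filter_not (s := S) (fun x => x + v ∈ S)

theorem adj_neg (v : H) (S : Finset H) : adj (-v) S = adj v S := by
  unfold adj
  apply Finset.card_bij' (fun x _ => x - v) (fun x _ => x + v)
  · intro x hx
    rw [mem_filter] at hx ⊢
    refine ⟨by simpa [sub_eq_add_neg] using hx.2, by simpa using hx.1⟩
  · intro x hx
    rw [mem_filter] at hx ⊢
    refine ⟨hx.2, by simpa using hx.1⟩
  · intro x _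
    simp
  · intro x _
    simp

theorem ch_neg (v : H) (S : Finset H) : ch (-v) S = ch v S := by
  have h1 := adj_add_ch v S
  have h2 := adj_add_ch (-v) S
  have h3 := adj_neg v S
  omega

/-- A function that is constant along the steps inside `S` takes at most `ch v S` values, as long
as some height increases along the steps. -/
theorem image_le_ch {v : H} {T : Type*} [DecidableEq T] (S : Finset H) (f : H → T) (w : H → ℤ)
    (hf : ∀ x ∈ S, x + v ∈ S → f (x + v) = f x)
    (hw : ∀ x ∈ S, x + v ∈ S → w x < w (x + v)) :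
    (S.image f).card ≤ ch v S := by
  unfold ch
  have : S.image f ⊆ (S.filter (fun x => x + v ∉ S)).image f := by
    intro c hc
    rw [mem_image] at hc
    obtain ⟨y, hy, hyc⟩ := hc
    have hne : (S.filter (fun x : H => f x = c)).Nonempty := ⟨y, by simp [hy, hyc]⟩
    obtain ⟨z, hz, hmax⟩ := Finset.exists_max_image _ w hne
    rw [mem_filter] at hz
    rw [mem_image]
    refine ⟨z, ?_, hz.2⟩
    rw [mem_filter]
    refine ⟨hz.1, fun h => ?_⟩
    have h1 := hmax (z + v) (by rw [mem_filter]; exact ⟨h, (hf z hz.1 h).trans hz.2⟩)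
    have h2 := hw z hz.1 h
    omega
  exact le_trans (card_le_card this) card_image_le

/-! ## The cylinder -/

/-- `u` and `v` generate the group, with the single relation `p u + q v = 0`. -/
structure Rel2 {G : Type*} [AddCommGroup G] (u v : G) (p q : ℕ) : Prop where
  gen : ∀ x : G, ∃ a b : ℤ, x = a • u + b • v
  rel : ∀ a b : ℤ, a • u + b • v = 0 → ∃ t : ℤ, a = t * p ∧ b = t * q
  base : (p : ℤ) • u + (q : ℤ) • v = 0

theorem Rel2.symm {G : Type*} [AddCommGroup G] {u v : G} {p q : ℕ} (h : Rel2 u v p q) :
    Rel2 v u q p := by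
  refine ⟨fun x => ?_, fun a b hab => ?_, ?_⟩
  · obtain ⟨a, b, hx⟩ := h.gen x
    exact ⟨b, a, by rw [hx, add_comm]⟩
  · obtain ⟨t, h1, h2⟩ := h.rel b a (by rw [add_comm]; exact hab)
    exact ⟨t, h2, h1⟩
  · rw [add_comm]
    exact h.base

section cyl

variable {u v : H} {p q : ℕ}

omit [DecidableEq H] in
/-- Coordinates. -/
theorem Rel2.coord (h : Rel2 u v p q) (hp : 0 < p) (c x : H) :
    ∃ i j : ℤ, 0 ≤ i ∧ i < p ∧ x = c + i • u + j • v := by
  obtain ⟨a, b, hab⟩ := h.gen (x - c)
  have hp' : (0 : ℤ) < p := by exact_mod_cast hp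
  refine ⟨a % p, b - (a / p) * q, Int.emod_nonneg _ hp'.ne', Int.emod_lt_of_pos _ hp', ?_⟩
  have h1 : a • u + b • v = (a % p) • u + (b - (a / p) * q) • v +
      (a / p) • ((p : ℤ) • u + (q : ℤ) • v) := by
    have h2 : a = a % p + (a / p) * p := by
      have := Int.emod_add_mul_ediv a p
      linarith
    conv_lhs => rw [h2]
    module
  rw [h.base, smul_zero, add_zero] at h1
  rw [add_assoc, ← h1, ← hab]
  abel

omit [DecidableEq H] in
/-- Uniqueness of the coordinates. -/
theorem Rel2.uniq (h : Rel2 u v p q) (c : H) {i i' j j' : ℤ} (hi : 0 ≤ i)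
    (hip : i < p) (hi' : 0 ≤ i') (hip' : i' < p)
    (he : c + i • u + j • v = c + i' • u + j' • v) : i = i' ∧ j = j' := by
  have h1 : (i - i') • u + (j - j') • v = 0 := by
    have h2 : (c + i • u + j • v) - (c + i' • u + j' • v) = 0 := sub_eq_zero.2 he
    rw [← h2]
    module
  obtain ⟨t, ht1, ht2⟩ := h.rel _ _ h1
  have ht0 : t = 0 := by
    by_contra hne
    rcases lt_or_gt_of_ne hne with hlt | hgt
    · nlinarith
    · nlinarith
  rw [ht0] at ht1 ht2
  constructor <;> linarith

/-- **Half of the profile.** -/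
theorem Rel2.half (h : Rel2 u v p q) (T : Finset H) :
    T.card ≤ ch u T * ch v T ∨ p ≤ ch v T := by
  rcases Nat.eq_zero_or_pos p with hp0 | hp
  · right
    rw [hp0]
    exact Nat.zero_le _
  by_cases hm : ∃ c : H, ∀ x ∈ T, ∀ j : ℤ, x ≠ c + j • v
  · left
    obtain ⟨c, hc⟩ := hm
    choose I J hI0 hIp hIJ using h.coord hp c
    have hv : ∀ x, I (x + v) = I x ∧ J (x + v) = J x + 1 := by
      intro x
      apply h.uniq c (hI0 _) (hIp _) (hI0 _) (hIp _)
      rw [← hIJ (x + v)]
      conv_lhs => rw [hIJ x]
      module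
    have hu : ∀ x, x + u ∈ T → I (x + u) = I x + 1 ∧ J (x + u) = J x := by
      intro x hx
      have hlt : I x + 1 < p := by
        by_contra hge
        have h1 : I x = p - 1 := by have := hIp x; omega
        apply hc _ hx (J x - q)
        have h2 : x + u = c + ((p : ℤ) • u + (q : ℤ) • v) + (J x - q) • v := by
          conv_lhs => rw [hIJ x, h1]
          module
        rw [h2, h.base, add_zero]
      apply h.uniq c (hI0 _) (hIp _) (by have := hI0 x; omega) hlt
      rw [← hIJ (x + u)]
      conv_lhs => rw [hIJ x]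
      module
    have h1 : (T.image I).card ≤ ch v T :=
      image_le_ch T I J (fun x _ _ => (hv x).1) (fun x _ _ => by rw [(hv x).2]; omega)
    have h2 : (T.image J).card ≤ ch u T :=
      image_le_ch T J I (fun x _ hx => (hu x hx).2) (fun x _ hx => by rw [(hu x hx).1]; omega)
    have h3 : T ⊆ ((T.image I) ×ˢ (T.image J)).image (fun s => c + s.1 • u + s.2 • v) := by
      intro x hx
      rw [mem_image]
      refine ⟨(I x, J x), ?_, (hIJ x).symm⟩
      rw [mem_product]
      exact ⟨mem_image_of_mem _ hx, mem_image_of_mem _ hx⟩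
    have h4 := le_trans (card_le_card h3) card_image_le
    rw [card_product] at h4
    calc T.card ≤ (T.image I).card * (T.image J).card := h4
      _ ≤ ch v T * ch u T := Nat.mul_le_mul h1 h2
      _ = ch u T * ch v T := mul_comm _ _
  · right
    push Not at hm
    choose I J hI0 hIp hIJ using h.coord hp 0
    have hv : ∀ x, I (x + v) = I x ∧ J (x + v) = J x + 1 := by
      intro x
      apply h.uniq 0 (hI0 _) (hIp _) (hI0 _) (hIp _)
      rw [← hIJ (x + v)]
      conv_lhs => rw [hIJ x]
      module
    have h1 : (T.image I).card ≤ ch v T :=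
      image_le_ch T I J (fun x _ _ => (hv x).1) (fun x _ _ => by rw [(hv x).2]; omega)
    refine le_trans ?_ h1
    have h2 : (range p).image (fun k : ℕ => (k : ℤ)) ⊆ T.image I := by
      intro z hz
      rw [mem_image] at hz
      obtain ⟨k, hk, rfl⟩ := hz
      rw [mem_range] at hk
      obtain ⟨x, hx, j, hj⟩ := hm ((k : ℤ) • u)
      rw [mem_image]
      refine ⟨x, hx, ?_⟩
      have := h.uniq 0 (i := I x) (i' := k) (j := J x) (j' := j) (hI0 _) (hIp _) (by omega)
        (by exact_mod_cast hk) (by rw [← hIJ x, hj, zero_add])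
      exact this.1
    have h3 := card_le_card h2
    rwa [card_image_of_injective (f := fun k : ℕ => (k : ℤ)) _ Nat.cast_injective,
      card_range] at h3

/-- **The profile of the cylinder.** -/
theorem Rel2.profile (h : Rel2 u v p q) (T : Finset H) :
    T.card ≤ ch u T * ch v T ∨ p + q ≤ ch u T + ch v T := by
  rcases h.half T with h1 | h1
  · exact Or.inl h1
  · rcases h.symm.half T with h2 | h2
    · left
      rwa [mul_comm]
    · right
      omega

end cyl

end Pool.Agent.Lib.MP_602b76_co_Plane
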