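import Pool.Agent.Lib.MP_602b76_co_Plane.Box

/-!
# Three generators with one relation: strips
-/

namespace Pool.Agent.Lib.MP_602b76_co_Plane

open Finset

variable {H : Type*} [AddCommGroup H] [DecidableEq H]

/-- The number of steps `v` among the first `l` steps of the staircase. -/
def yy (p q l : ℕ) : ℕ := q * l / (p + q)

theorem yy_succ {p q : ℕ} (h : 0 < p + q) (l : ℕ) :
    yy p q (l + 1) = yy p q l ∨ yy p q (l + 1) = yy p q l + 1 := by
  unfold yy
  have h1 : q * l / (p + q) ≤ q * (l + 1) / (p + q) :=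
    Nat.div_le_div_right (Nat.mul_le_mul_left _ (Nat.le_succ l))
  have h2 : q * (l + 1) / (p + q) ≤ q * l / (p + q) + 1 := by
    rw [← Nat.add_div_right _ h]
    apply Nat.div_le_div_right
    rw [mul_add, mul_one]
    omega
  omega

theorem yy_end {p q : ℕ} (h : 0 < p + q) : yy p q (p + q) = q := by
  unfold yy
  exact Nat.mul_div_cancel _ h

/-- The point number `j` of the diagonal number `l`, moved by `t` steps `b`. -/
def pt (u v b : H) (p q l : ℕ) (j t : ℤ) : H :=
  ((l : ℤ) - yy p q l - j) • u + ((yy p q l : ℤ) + j) • v + t • b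

/-- The point with number `m` of the strip of width `k`. -/
def stripPt (u v b : H) (p q k m : ℕ) : H :=
  pt u v b p q (m / k % (p + q)) ((m % k : ℕ) : ℤ) ((m / k / (p + q) : ℕ) : ℤ)

variable {u v b : H} {p q r : ℕ}

omit [DecidableEq H] in
theorem pt_u_zero {l : ℕ} (he : yy p q (l + 1) = yy p q l) (j t : ℤ) :
    pt u v b p q l j t + u = pt u v b p q (l + 1) j t := by
  unfold pt
  rw [he]
  push_cast
  module

omit [DecidableEq H] in
theorem pt_u_one {l : ℕ} (he : yy p q (l + 1) = yy p q l + 1) (j t : ℤ) :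
    pt u v b p q l j t + u = pt u v b p q (l + 1) (j - 1) t := by
  unfold pt
  rw [he]
  push_cast
  module

omit [DecidableEq H] in
theorem pt_v_zero {l : ℕ} (he : yy p q (l + 1) = yy p q l) (j t : ℤ) :
    pt u v b p q l j t + v = pt u v b p q (l + 1) (j + 1) t := by
  unfold pt
  rw [he]
  push_cast
  module

omit [DecidableEq H] in
theorem pt_v_one {l : ℕ} (he : yy p q (l + 1) = yy p q l + 1) (j t : ℤ) :
    pt u v b p q l j t + v = pt u v b p q (l + 1) j t := by
  unfold pt
  rw [he]
  push_cast
  module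

omit [DecidableEq H] in
theorem pt_end (h : Rel3 u v b p q r) (hE : 0 < p + q) (j t : ℤ) :
    pt u v b p q (p + q) j t = pt u v b p q 0 j (t + r) := by
  unfold pt
  rw [yy_end hE]
  have h0 : yy p q 0 = 0 := by unfold yy; simp
  rw [h0]
  have h1 : (((p + q : ℕ) : ℤ) - q - j) • u + ((q : ℤ) + j) • v + t • b =
      ((p : ℤ) • u + (q : ℤ) • v) + (-j) • u + j • v + t • b := by
    push_cast
    module
  rw [h1, h.base]
  push_cast
  module

omit [DecidableEq H] in
theorem stripPt_idx {k l j t : ℕ} (hj : j < k) (hl : l < p + q) :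
    stripPt u v b p q k (k * ((p + q) * t + l) + j) = pt u v b p q l j t := by
  unfold stripPt
  have hk : 0 < k := by omega
  have hE : 0 < p + q := by omega
  have e1 : (k * ((p + q) * t + l) + j) / k = (p + q) * t + l := by
    rw [Nat.mul_add_div hk, Nat.div_eq_of_lt hj, add_zero]
  have e2 : (k * ((p + q) * t + l) + j) % k = j := by
    rw [Nat.mul_add_mod, Nat.mod_eq_of_lt hj]
  have e3 : ((p + q) * t + l) % (p + q) = l := by
    rw [Nat.mul_add_mod, Nat.mod_eq_of_lt hl]
  have e4 : ((p + q) * t + l) / (p + q) = t := by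
    rw [Nat.mul_add_div hE, Nat.div_eq_of_lt hl, add_zero]
  rw [e1, e2, e3, e4]

omit [DecidableEq H] in
theorem stripPt_inj (h : Rel3 u v b p q r) {k : ℕ} (hE : 0 < p + q) :
    Function.Injective (stripPt u v b p q k) := by
  intro m m' he
  unfold stripPt pt at he
  obtain ⟨l, hl⟩ : ∃ l, l = m / k % (p + q) := ⟨_, rfl⟩
  obtain ⟨j, hj⟩ : ∃ j, j = m % k := ⟨_, rfl⟩
  obtain ⟨t, ht⟩ : ∃ t, t = m / k / (p + q) := ⟨_, rfl⟩
  obtain ⟨l', hl'⟩ : ∃ l, l = m' / k % (p + q) := ⟨_, rfl⟩
  obtain ⟨j', hj'⟩ : ∃ j, j = m' % k := ⟨_, rfl⟩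
  obtain ⟨t', ht'⟩ : ∃ t, t = m' / k / (p + q) := ⟨_, rfl⟩
  have l1 : l < p + q := by rw [hl]; exact Nat.mod_lt _ hE
  have l2 : l' < p + q := by rw [hl']; exact Nat.mod_lt _ hE
  rw [← hl, ← hj, ← ht, ← hl', ← hj', ← ht'] at he
  have h1 : (((l : ℤ) - yy p q l - j) - ((l' : ℤ) - yy p q l' - j')) • u +
      (((yy p q l : ℤ) + j) - ((yy p q l' : ℤ) + j')) • v + ((t : ℤ) - t') • b = 0 := by
    have := sub_eq_zero.2 he
    rw [← this]
    module
  obtain ⟨s, h2, h3, h4⟩ := h.rel _ _ _ h1
  have hs : s = 0 := by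
    by_contra hne
    have h5 : (l : ℤ) - l' = s * (p + q) := by linarith
    rcases lt_or_gt_of_ne hne with hlt | hgt
    · nlinarith
    · nlinarith
  rw [hs] at h2 h3 h4
  have e1 : l = l' := by omega
  rw [e1] at h2 h3
  have e2 : j = j' := by omega
  have e3 : t = t' := by omega
  have m1 := Nat.div_add_mod m k
  have m2 := Nat.div_add_mod (m / k) (p + q)
  have m3 := Nat.div_add_mod m' k
  have m4 := Nat.div_add_mod (m' / k) (p + q)
  rw [← hl, ← ht] at m2
  rw [← hl', ← ht', ← e1, ← e3] at m4
  rw [← hj] at m1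
  rw [← hj', ← e2] at m3
  rw [← m1, ← m3, ← m2, ← m4]

theorem card_strip (h : Rel3 u v b p q r) {k : ℕ} (hE : 0 < p + q) (n : ℕ) :
    ((range n).image (stripPt u v b p q k)).card = n := by
  rw [card_image_of_injective _ (stripPt_inj h hE), card_range]

theorem ch_strip_b {k : ℕ} (hk : 0 < k) (hE : 0 < p + q) (n : ℕ) :
    ch b ((range n).image (stripPt u v b p q k)) ≤ k * (p + q) := by
  refine le_trans (ch_image_le (Ico (n - k * (p + q)) n) ?_) (by rw [Nat.card_Ico]; omega)
  intro m hm hmA
  rw [mem_Ico] at hmA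
  refine ⟨m + k * (p + q), by omega, ?_⟩
  unfold stripPt
  have e1 : (m + k * (p + q)) % k = m % k := by simp
  have e2 : (m + k * (p + q)) / k = m / k + (p + q) := by
    rw [Nat.add_mul_div_left _ _ hk]
  rw [e1, e2, Nat.add_mod_right, Nat.add_div_right _ hE]
  unfold pt
  push_cast
  module

/-- The indices whose diagonal is the last one of one of the last layers. -/
def third (p q r k n : ℕ) : Finset ℕ :=
  ((Ico (n / k / (p + q) - r) (n / k / (p + q) + 1)) ×ˢ (range k)).image
    (fun s => k * ((p + q) * s.1 + (p + q - 1)) + s.2)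

theorem card_third (p q r k n : ℕ) : (third p q r k n).card ≤ (r + 1) * k := by
  unfold third
  refine le_trans card_image_le ?_
  rw [card_product, card_range, Nat.card_Ico]
  apply Nat.mul_le_mul_right
  omega

omit [DecidableEq H] in
/-- The translate of a point of the strip is a point of the strip. -/
theorem strip_next (h : Rel3 u v b p q r) {k : ℕ} (hk : 0 < k) (hE : 0 < p + q) {n m : ℕ}
    (hm : m < n) (hthird : m ∉ third p q r k n) {j' : ℕ} (hj' : j' < k)
    (hnext : k * (m / k + 1) + j' < n) :
    ∃ m' < n, stripPt u v b p q k m' =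
      pt u v b p q (m / k % (p + q) + 1) j' ((m / k / (p + q) : ℕ) : ℤ) := by
  have hdm := Nat.div_add_mod m k
  have hdm' := Nat.div_add_mod (m / k) (p + q)
  have hml' := Nat.mod_lt (m / k) hE
  by_cases hl : m / k % (p + q) + 1 < p + q
  · refine ⟨k * ((p + q) * (m / k / (p + q)) + (m / k % (p + q) + 1)) + j', ?_, ?_⟩
    · have : (p + q) * (m / k / (p + q)) + (m / k % (p + q) + 1) = m / k + 1 := by omega
      rw [this]
      exact hnext
    · exact stripPt_idx hj' hl
  · have hl1 : m / k % (p + q) + 1 = p + q := by omega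
    have ht : m / k / (p + q) + r + 1 ≤ n / k / (p + q) := by
      by_contra hge
      apply hthird
      unfold third
      rw [mem_image]
      refine ⟨(m / k / (p + q), m % k), ?_, ?_⟩
      · rw [mem_product, mem_Ico, mem_range]
        have h1 : m / k / (p + q) ≤ n / k / (p + q) :=
          Nat.div_le_div_right (Nat.div_le_div_right hm.le)
        have h2 : n / k / (p + q) < m / k / (p + q) + r + 1 := not_le.1 hge
        exact ⟨⟨Nat.sub_le_of_le_add (Nat.lt_succ_iff.1 h2), Nat.lt_succ_of_le h1⟩,
          Nat.mod_lt _ hk⟩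
      · simp only
        have : (p + q) * (m / k / (p + q)) + (p + q - 1) = m / k := by omega
        rw [this]
        exact hdm
    refine ⟨k * ((p + q) * (m / k / (p + q) + r) + 0) + j', ?_, ?_⟩
    · have h1 : (p + q) * (m / k / (p + q) + r + 1) ≤ n / k := by
        refine le_trans (Nat.mul_le_mul_left _ ht) ?_
        exact Nat.mul_div_le _ _
      have h2 : k * ((p + q) * (m / k / (p + q) + r + 1)) ≤ n := by
        refine le_trans (Nat.mul_le_mul_left _ h1) ?_
        exact Nat.mul_div_le _ _
      have h3 : (p + q) * (m / k / (p + q) + r) + 0 + 1 ≤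
          (p + q) * (m / k / (p + q) + r + 1) := by
        rw [mul_add (p + q) (m / k / (p + q) + r) 1]
        omega
      have h4 := Nat.mul_le_mul_left k h3
      rw [mul_add, mul_one] at h4
      omega
    · rw [stripPt_idx hj' hE, hl1, pt_end h hE]
      push_cast
      rfl

/-- The rows where the staircase makes a step `v`, respectively `u`. -/
def rows1 (p q k n : ℕ) : Finset ℕ :=
  (range (n / k + 1)).filter (fun s => yy p q (s % (p + q) + 1) = yy p q (s % (p + q)) + 1)

def rows0 (p q k n : ℕ) : Finset ℕ :=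
  (range (n / k + 1)).filter (fun s => ¬ yy p q (s % (p + q) + 1) = yy p q (s % (p + q)) + 1)

theorem card_rows (p q k n : ℕ) : (rows1 p q k n).card + (rows0 p q k n).card = n / k + 1 := by
  unfold rows1 rows0
  rw [Finset.card_filter_add_card_filter_not, card_range]

theorem ch_strip_u (h : Rel3 u v b p q r) {k : ℕ} (hk : 0 < k) (hE : 0 < p + q) (n : ℕ) :
    ch u ((range n).image (stripPt u v b p q k)) ≤
      (rows1 p q k n).card + k + (r + 1) * k := by
  refine le_trans (ch_image_le ((rows1 p q k n).image (fun s => k * s) ∪ Ico (n - k) n ∪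
    third p q r k n) ?_) ?_
  · intro m hm hmA
    rw [mem_union, mem_union, not_or, not_or, mem_Ico, mem_image] at hmA
    obtain ⟨⟨h1, h2⟩, h3⟩ := hmA
    have hdm := Nat.div_add_mod m k
    have hml := Nat.mod_lt m hk
    rcases yy_succ hE (m / k % (p + q)) with he | he
    · obtain ⟨m', hm', hm''⟩ := strip_next h hk hE hm h3 (j' := m % k) hml (by
        rw [mul_add, mul_one]; omega)
      refine ⟨m', hm', ?_⟩
      rw [hm'']
      unfold stripPt
      rw [pt_u_zero he]
    · have hj : 0 < m % k := by
        rw [Nat.pos_iff_ne_zero]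
        intro h0
        apply h1
        refine ⟨m / k, ?_, by omega⟩
        unfold rows1
        rw [mem_filter, mem_range]
        refine ⟨?_, he⟩
        have : m / k ≤ n / k := Nat.div_le_div_right hm.le
        omega
      obtain ⟨m', hm', hm''⟩ := strip_next h hk hE hm h3 (j' := m % k - 1) (by omega) (by
        rw [mul_add, mul_one]; omega)
      refine ⟨m', hm', ?_⟩
      rw [hm'']
      unfold stripPt
      rw [pt_u_one he]
      have : ((m % k - 1 : ℕ) : ℤ) = ((m % k : ℕ) : ℤ) - 1 := by omega
      rw [this]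
  · refine le_trans (card_union_le _ _) ?_
    refine Nat.add_le_add ?_ (card_third _ _ _ _ _)
    refine le_trans (card_union_le _ _) ?_
    refine Nat.add_le_add card_image_le ?_
    rw [Nat.card_Ico]
    omega

theorem ch_strip_v (h : Rel3 u v b p q r) {k : ℕ} (hk : 0 < k) (hE : 0 < p + q) (n : ℕ) :
    ch v ((range n).image (stripPt u v b p q k)) ≤
      (rows0 p q k n).card + (k + 1) + (r + 1) * k := by
  refine le_trans (ch_image_le ((rows0 p q k n).image (fun s => k * s + (k - 1)) ∪
    Ico (n - (k + 1)) n ∪ third p q r k n) ?_) ?_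
  · intro m hm hmA
    rw [mem_union, mem_union, not_or, not_or, mem_Ico, mem_image] at hmA
    obtain ⟨⟨h1, h2⟩, h3⟩ := hmA
    have hdm := Nat.div_add_mod m k
    have hml := Nat.mod_lt m hk
    rcases yy_succ hE (m / k % (p + q)) with he | he
    · have hj : m % k + 1 < k := by
        by_contra hge
        apply h1
        refine ⟨m / k, ?_, by omega⟩
        unfold rows0
        rw [mem_filter, mem_range]
        refine ⟨?_, by omega⟩
        have : m / k ≤ n / k := Nat.div_le_div_right hm.le
        omega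
      obtain ⟨m', hm', hm''⟩ := strip_next h hk hE hm h3 (j' := m % k + 1) hj (by
        rw [mul_add, mul_one]; omega)
      refine ⟨m', hm', ?_⟩
      rw [hm'']
      unfold stripPt
      rw [pt_v_zero he]
      push_cast
      rfl
    · obtain ⟨m', hm', hm''⟩ := strip_next h hk hE hm h3 (j' := m % k) hml (by
        rw [mul_add, mul_one]; omega)
      refine ⟨m', hm', ?_⟩
      rw [hm'']
      unfold stripPt
      rw [pt_v_one he]
  · refine le_trans (card_union_le _ _) ?_
    refine Nat.add_le_add ?_ (card_third _ _ _ _ _)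
    refine le_trans (card_union_le _ _) ?_
    refine Nat.add_le_add card_image_le ?_
    rw [Nat.card_Ico]
    omega

theorem tau_strip (h : Rel3 u v b p q r) {k : ℕ} (hk : 0 < k) (hE : 0 < p + q) (n : ℕ) :
    tau u v b ((range n).image (stripPt u v b p q k)) ≤
      k * (p + q) + n / k + (2 * r + 4) * k + 2 := by
  have h1 := ch_strip_u h hk hE n
  have h2 := ch_strip_v h hk hE n
  have h3 := ch_strip_b (u := u) (v := v) (b := b) hk hE n
  have h4 := card_rows p q k n
  unfold tau
  have e : (2 * r + 4) * k = 2 * ((r + 1) * k) + 2 * k := by ring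
  omega

end Pool.Agent.Lib.MP_602b76_co_Plane
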