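import Pool.Agent.Lib.MP_602b76_co_Plane.Layers
import Pool.Agent.Lib.MP_602b76_co_Plane.Strip
import Pool.Agent.Lib.MP_602b76_co_Plane.Arith

/-!
# Three generators with one relation: no nested sequence of optimal sets
-/

namespace Pool.Agent.Lib.MP_602b76_co_Plane

open Finset

variable {H G : Type*} [AddCommGroup H] [DecidableEq H] [AddCommGroup G] [DecidableEq G]

/-- Optimal sets. -/
def Opt (u v b : H) (S : Finset H) : Prop :=
  ∀ T : Finset H, T.card = S.card → tau u v b S ≤ tau u v b T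

/-- Every class modulo `b` met by `S` contains a chain of step `b`. -/
theorem classes_le {b : H} (π : H →+ G) (hb : π b = 0) (w : H → ℤ)
    (hw : ∀ x, w x < w (x + b)) (S : Finset H) : (S.image π).card ≤ ch b S :=
  image_le_ch S π w (fun x _ _ => by rw [map_add, hb, add_zero]) (fun x _ _ => hw x)

theorem card_classes_insert (π : H →+ G) (x : H) (S : Finset H) :
    ((insert x S).image π).card ≤ (S.image π).card + 1 := by
  rw [image_insert]
  exact card_insert_le _ _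

/-- A set with exactly `⌈(p + q) ^ 2 / 4⌉` classes is not optimal. -/
theorem not_opt {u v b : H} {p q r : ℕ} (π : H →+ G) (hb : π b = 0)
    (h3 : Rel3 u v b p q r) (h2 : Rel2 (π u) (π v) p q) (w : H → ℤ)
    (hw : ∀ x, w x < w (x + b)) (hE : 30 * (r + 10) ≤ p + q) {S : Finset H}
    (hS : (S.image π).card = ((p + q) ^ 2 + 3) / 4) : ¬ Opt u v b S := by
  intro hopt
  obtain ⟨E, hEq⟩ : ∃ E, E = p + q := ⟨_, rfl⟩
  obtain ⟨C, hCq⟩ : ∃ C, C = ((p + q) ^ 2 + 3) / 4 := ⟨_, rfl⟩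
  obtain ⟨n, hn⟩ : ∃ n, n = S.card := ⟨_, rfl⟩
  obtain ⟨F, hF⟩ : ∃ F, F = ch u S + ch v S := ⟨_, rfl⟩
  obtain ⟨a, ha⟩ : ∃ a, a = 9 * E / 20 := ⟨_, rfl⟩
  obtain ⟨k, hk⟩ : ∃ k, k = 3 * E / 10 := ⟨_, rfl⟩
  rw [← hEq] at hE
  have hC1 : E ^ 2 ≤ 4 * C := by rw [hCq, ← hEq]; omega
  have hC2 : 4 * C ≤ E ^ 2 + 3 := by rw [hCq, ← hEq]; omega
  have ha0 : 0 < a := by omega
  have hk0 : 0 < k := by omega
  have hap : a ≤ p ∨ a ≤ q := by omega
  have hL := lower π h2 (S := S) (C := C) (by rw [hS, hCq]) (by rw [← hEq]; exact hC1)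
  rw [← hEq, ← hn, ← hF] at hL
  have hch := classes_le π hb w hw S
  rw [hS, ← hCq] at hch
  have hU1 := hopt ((range n).image (boxPt u v b a)) (by rw [card_box h3 ha0 hap, hn])
  have hU1' := le_trans hU1 (tau_box u v b ha0 n)
  have hU2 := hopt ((range n).image (stripPt u v b p q k)) (by
    rw [card_strip h3 (by omega), hn])
  have hU2' := le_trans hU2 (tau_strip h3 hk0 (by omega) n)
  have htau : tau u v b S = F + ch b S := by unfold tau; rw [hF]
  rw [htau] at hU1' hU2'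
  rw [← hEq] at hU2'
  have hU3 : a * (F + C) ≤ a * (a + 1) ^ 2 + 2 * n := by
    have h1 : F + C ≤ (a + 1) ^ 2 + 2 * (n / a) := by
      have : (a + 1) ^ 2 = a * a + 2 * a + 1 := by ring
      omega
    have h2 : a * (n / a) ≤ n := Nat.mul_div_le n a
    calc a * (F + C) ≤ a * ((a + 1) ^ 2 + 2 * (n / a)) := Nat.mul_le_mul_left _ h1
      _ = a * (a + 1) ^ 2 + 2 * (a * (n / a)) := by ring
      _ ≤ a * (a + 1) ^ 2 + 2 * n := by omega
  have hU4 : k * (F + C) ≤ k ^ 2 * E + n + (2 * r + 4) * k ^ 2 + 2 * k := by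
    have h1 : F + C ≤ k * E + n / k + (2 * r + 4) * k + 2 := by omega
    have h2 : k * (n / k) ≤ n := Nat.mul_div_le n k
    calc k * (F + C) ≤ k * (k * E + n / k + (2 * r + 4) * k + 2) := Nat.mul_le_mul_left _ h1
      _ = k ^ 2 * E + k * (n / k) + (2 * r + 4) * k ^ 2 + 2 * k := by ring
      _ ≤ k ^ 2 * E + n + (2 * r + 4) * k ^ 2 + 2 * k := by omega
  have e1 : 9 * E ≤ 20 * a + 19 := by omega
  have e2 : 20 * a ≤ 9 * E := by omega
  have e3 : 3 * E ≤ 10 * k + 9 := by omega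
  have e4 : 10 * k ≤ 3 * E := by omega
  have f1 : (9 : ℝ) * E ≤ 20 * a + 19 := by exact_mod_cast e1
  have f2 : (20 : ℝ) * a ≤ 9 * E := by exact_mod_cast e2
  have f3 : (3 : ℝ) * E ≤ 10 * k + 9 := by exact_mod_cast e3
  have f4 : (10 : ℝ) * k ≤ 3 * E := by exact_mod_cast e4
  have f5 : (30 : ℝ) * (r + 10) ≤ E := by exact_mod_cast hE
  exact arith (E := E) (r := r) (a := a) (k := k) (C := C) (F := F) (n := n)
    (by positivity) (by linarith) (by linarith) (by linarith) (by linarith) (by linarith)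
    (by exact_mod_cast hC1) (by exact_mod_cast hC2) (by positivity) (by exact_mod_cast hL)
    (by exact_mod_cast hU3) (by exact_mod_cast hU4)

/-- **No nested sequence.** -/
theorem core {u v b : H} {p q r : ℕ} (π : H →+ G) (hb : π b = 0)
    (h3 : Rel3 u v b p q r) (h2 : Rel2 (π u) (π v) p q) (w : H → ℤ)
    (hw : ∀ x, w x < w (x + b)) (hE : 30 * (r + 10) ≤ p + q) (S : ℕ → Finset H)
    (hcard : ∀ n, (S n).card = n) (hstep : ∀ n, ∃ x, S (n + 1) = insert x (S n)) :
    ∃ n : ℕ, n ≤ (p + q) ^ 3 ∧ ¬ Opt u v b (S n) := by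
  by_contra hcon
  push Not at hcon
  obtain ⟨E, hEq⟩ : ∃ E, E = p + q := ⟨_, rfl⟩
  obtain ⟨C, hCq⟩ : ∃ C, C = ((p + q) ^ 2 + 3) / 4 := ⟨_, rfl⟩
  have hC1 : E ^ 2 ≤ 4 * C := by rw [hCq, ← hEq]; omega
  have hC2 : 4 * C ≤ E ^ 2 + 3 := by rw [hCq, ← hEq]; omega
  have hE1 : 30 * (r + 10) ≤ E := by rw [hEq]; exact hE
  -- at the end there are more than `C` classes
  have hend : C < ((S (E ^ 3)).image π).card := by
    by_contra hle
    push Not at hle
    have hL := lower π h2 (S := S (E ^ 3)) hle (by rw [← hEq]; exact hC1)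
    rw [hcard, ← hEq] at hL
    have hU := hcon (E ^ 3) (by rw [hEq]) ((range (E ^ 3)).image (stripPt u v b p q E)) (by
      rw [card_strip h3 (k := E) (by omega), hcard])
    have hU' := le_trans hU (tau_strip h3 (k := E) (by omega) (by omega) (E ^ 3))
    rw [← hEq] at hU'
    have h4 : E ^ 3 / E = E ^ 2 := by
      rw [pow_succ]
      exact Nat.mul_div_cancel _ (by omega)
    rw [h4] at hU'
    have h5 : ch u (S (E ^ 3)) + ch v (S (E ^ 3)) ≤ 3 * E ^ 2 := by
      have h6 : ch u (S (E ^ 3)) + ch v (S (E ^ 3)) ≤ tau u v b (S (E ^ 3)) := by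
        unfold tau
        omega
      have h7 : (2 * r + 4) * E + 2 ≤ E ^ 2 := by
        have h8 : 2 * r + 5 ≤ E := by omega
        have h9 : (2 * r + 5) * E ≤ E * E := Nat.mul_le_mul_right _ h8
        have h10 : (2 * r + 5) * E = (2 * r + 4) * E + E := by ring
        have h11 : E ^ 2 = E * E := by ring
        omega
      have h12 : E * E = E ^ 2 := by ring
      omega
    have h6 : 4 * (E * E ^ 3) ≤ (E ^ 2 + 3) * (3 * E ^ 2) := by
      calc 4 * (E * E ^ 3) ≤ 4 * (C * (ch u (S (E ^ 3)) + ch v (S (E ^ 3)))) := by omega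
        _ ≤ 4 * (C * (3 * E ^ 2)) := by
            have := Nat.mul_le_mul_left C h5
            omega
        _ = 4 * C * (3 * E ^ 2) := by ring
        _ ≤ (E ^ 2 + 3) * (3 * E ^ 2) := Nat.mul_le_mul_right _ hC2
    have h7 : E ^ 2 * (4 * E ^ 2) ≤ E ^ 2 * (3 * E ^ 2 + 9) := by
      calc E ^ 2 * (4 * E ^ 2) = 4 * (E * E ^ 3) := by ring
        _ ≤ _ := h6
        _ = E ^ 2 * (3 * E ^ 2 + 9) := by ring
    have hE0 : 0 < E := by omega
    have h8 := Nat.le_of_mul_le_mul_left h7 (by positivity)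
    have h9 : 300 * 300 ≤ E ^ 2 := by
      have : E ^ 2 = E * E := by ring
      rw [this]
      exact Nat.mul_le_mul (by omega) (by omega)
    omega
  have hex : ∃ n, n ≤ E ^ 3 ∧ C ≤ ((S n).image π).card := ⟨E ^ 3, le_rfl, hend.le⟩
  classical
  obtain ⟨n, hn1, hn2⟩ : ∃ n, n ≤ E ^ 3 ∧ ((S n).image π).card = C := by
    refine ⟨Nat.find hex, (Nat.find_spec hex).1, le_antisymm ?_ (Nat.find_spec hex).2⟩
    rcases Nat.eq_zero_or_pos (Nat.find hex) with h0 | h0
    · rw [h0]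
      have : S 0 = ∅ := Finset.card_eq_zero.1 (hcard 0)
      rw [this]
      simp
    · obtain ⟨m, hm⟩ := Nat.exists_eq_succ_of_ne_zero h0.ne'
      have h1 : ¬ (m ≤ E ^ 3 ∧ C ≤ ((S m).image π).card) := Nat.find_min hex (by omega)
      have h2 := (Nat.find_spec hex).1
      have h3 : ((S m).image π).card < C := by
        by_contra hge
        push Not at hge
        exact h1 ⟨by omega, hge⟩
      rw [hm]
      obtain ⟨x, hx⟩ := hstep m
      have h4 := card_classes_insert π x (S m)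
      rw [← hx] at h4
      have e : m.succ = m + 1 := rfl
      rw [e]
      omega
  exact not_opt π hb h3 h2 w hw hE (by rw [hn2, hCq]) (hcon n (by rw [← hEq]; exact hn1))

end Pool.Agent.Lib.MP_602b76_co_Plane
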