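import Pool.Agent.Lib.MP_602b76_co_Plane.Core
import Pool.Agent.Lib.MP_602b76_co_Never.Defs

/-!
# Three generators in the plane
-/

namespace Pool.Agent.Lib.MP_602b76_co_Plane

open Finset Pool.Agent.Lib.MP_602b76_co_Never

/-- The determinant of two vectors of `ℤ^2`. -/
def det2 (x y : Fin 2 → ℤ) : ℤ := x 0 * y 1 - x 1 * y 0

section generators

variable {u v b : Fin 2 → ℤ}

theorem gen_of_closure (h : AddSubgroup.closure ({u, v, b} : Set (Fin 2 → ℤ)) = ⊤)
    (x : Fin 2 → ℤ) : ∃ i j k : ℤ, x = i • u + j • v + k • b := by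
  have hx : x ∈ AddSubgroup.closure ({u, v, b} : Set (Fin 2 → ℤ)) := by
    rw [h]; exact AddSubgroup.mem_top _
  induction hx using AddSubgroup.closure_induction with
  | mem z hz =>
    simp only [Set.mem_insert_iff, Set.mem_singleton_iff] at hz
    rcases hz with rfl | rfl | rfl
    · exact ⟨1, 0, 0, by simp⟩
    · exact ⟨0, 1, 0, by simp⟩
    · exact ⟨0, 0, 1, by simp⟩
  | zero => exact ⟨0, 0, 0, by simp⟩
  | add s t _ _ hs ht =>
    obtain ⟨i, j, k, rfl⟩ := hs
    obtain ⟨i', j', k', rfl⟩ := ht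
    exact ⟨i + i', j + j', k + k', by module⟩
  | neg s _ hs =>
    obtain ⟨i, j, k, rfl⟩ := hs
    exact ⟨-i, -j, -k, by module⟩

theorem exists_bezout (h : AddSubgroup.closure ({u, v, b} : Set (Fin 2 → ℤ)) = ⊤) :
    ∃ α β γ : ℤ, α * det2 v b + β * det2 b u + γ * det2 u v = 1 := by
  obtain ⟨i1, j1, k1, h1⟩ := gen_of_closure h ![1, 0]
  obtain ⟨i2, j2, k2, h2⟩ := gen_of_closure h ![0, 1]
  have a1 := congrFun h1 0
  have a2 := congrFun h1 1
  have a3 := congrFun h2 0
  have a4 := congrFun h2 1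
  simp at a1 a2 a3 a4
  refine ⟨j1 * k2 - k1 * j2, k1 * i2 - i1 * k2, i1 * j2 - j1 * i2, ?_⟩
  unfold det2
  have e : (j1 * k2 - k1 * j2) * (v 0 * b 1 - v 1 * b 0) +
      (k1 * i2 - i1 * k2) * (b 0 * u 1 - b 1 * u 0) +
      (i1 * j2 - j1 * i2) * (u 0 * v 1 - u 1 * v 0) =
      (i1 * u 0 + j1 * v 0 + k1 * b 0) * (i2 * u 1 + j2 * v 1 + k2 * b 1) -
        (i1 * u 1 + j1 * v 1 + k1 * b 1) * (i2 * u 0 + j2 * v 0 + k2 * b 0) := by ring
  rw [e, ← a1, ← a2, ← a3, ← a4]
  ring

theorem kernel (h : AddSubgroup.closure ({u, v, b} : Set (Fin 2 → ℤ)) = ⊤) {i j k : ℤ}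
    (h0 : i • u + j • v + k • b = 0) :
    ∃ t : ℤ, i = t * det2 v b ∧ j = t * det2 b u ∧ k = t * det2 u v := by
  obtain ⟨α, β, γ, hb⟩ := exists_bezout h
  have c0 := congrFun h0 0
  have c1 := congrFun h0 1
  simp only [Pi.add_apply, Pi.smul_apply, smul_eq_mul, Pi.zero_apply] at c0 c1
  have r1 : i * det2 b u = j * det2 v b := by
    unfold det2
    linear_combination b 0 * c1 - b 1 * c0
  have r2 : j * det2 u v = k * det2 b u := by
    unfold det2
    linear_combination u 0 * c1 - u 1 * c0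
  have r3 : k * det2 v b = i * det2 u v := by
    unfold det2
    linear_combination v 0 * c1 - v 1 * c0
  refine ⟨α * i + β * j + γ * k, ?_, ?_, ?_⟩
  · linear_combination (-i) * hb + β * r1 - γ * r3
  · linear_combination (-j) * hb - α * r1 + γ * r2
  · linear_combination (-k) * hb + α * r3 - β * r2

/-- A sign with values `1` and `-1`. -/
def sg (x : ℤ) : ℤ := if 0 ≤ x then 1 else -1

theorem sg_mul (x : ℤ) : sg x * (x.natAbs : ℤ) = x := by
  unfold sg
  split_ifs with h
  · omega
  · omega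

theorem sg_sq (x : ℤ) : sg x * sg x = 1 := by
  unfold sg
  split_ifs <;> norm_num

theorem sg_cases (x : ℤ) : sg x = 1 ∨ sg x = -1 := by
  unfold sg
  split_ifs
  · exact Or.inl rfl
  · exact Or.inr rfl

theorem rel3_of_closure (h : AddSubgroup.closure ({u, v, b} : Set (Fin 2 → ℤ)) = ⊤) :
    Rel3 (sg (det2 v b) • u) (sg (det2 b u) • v) (-(sg (det2 u v)) • b)
      (det2 v b).natAbs (det2 b u).natAbs (det2 u v).natAbs := by
  have hP := sg_mul (det2 v b)
  have hQ := sg_mul (det2 b u)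
  have hR := sg_mul (det2 u v)
  have sP := sg_sq (det2 v b)
  have sQ := sg_sq (det2 b u)
  have sR := sg_sq (det2 u v)
  refine ⟨fun x => ?_, fun i j k hijk => ?_, ?_⟩
  · obtain ⟨i, j, k, hx⟩ := gen_of_closure h x
    refine ⟨i * sg (det2 v b), j * sg (det2 b u), -(k * sg (det2 u v)), ?_⟩
    rw [smul_smul, smul_smul, smul_smul]
    have e1 : i * sg (det2 v b) * sg (det2 v b) = i := by rw [mul_assoc, sP, mul_one]
    have e2 : j * sg (det2 b u) * sg (det2 b u) = j := by rw [mul_assoc, sQ, mul_one]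
    have e3 : -(k * sg (det2 u v)) * -(sg (det2 u v)) = k := by
      linear_combination k * sR
    rw [e1, e2, e3]
    exact hx
  · rw [smul_smul, smul_smul, smul_smul] at hijk
    obtain ⟨t, h1, h2, h3⟩ := kernel h hijk
    refine ⟨t, ?_, ?_, ?_⟩
    · have : i * sg (det2 v b) * sg (det2 v b) =
          t * (sg (det2 v b) * ((det2 v b).natAbs : ℤ)) * sg (det2 v b) := by rw [h1, hP]
      linear_combination this - i * sP + t * ((det2 v b).natAbs : ℤ) * sP
    · have : j * sg (det2 b u) * sg (det2 b u) =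
          t * (sg (det2 b u) * ((det2 b u).natAbs : ℤ)) * sg (det2 b u) := by rw [h2, hQ]
      linear_combination this - j * sQ + t * ((det2 b u).natAbs : ℤ) * sQ
    · have : k * -(sg (det2 u v)) * sg (det2 u v) =
          t * (sg (det2 u v) * ((det2 u v).natAbs : ℤ)) * sg (det2 u v) := by rw [h3, hR]
      linear_combination -this - k * sR - t * ((det2 u v).natAbs : ℤ) * sR
  · rw [smul_smul, smul_smul, smul_smul]
    have e1 : ((det2 v b).natAbs : ℤ) * sg (det2 v b) = det2 v b := by rw [mul_comm, hP]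
    have e2 : ((det2 b u).natAbs : ℤ) * sg (det2 b u) = det2 b u := by rw [mul_comm, hQ]
    have e3 : ((det2 u v).natAbs : ℤ) * -(sg (det2 u v)) = -det2 u v := by
      linear_combination -hR
    rw [e1, e2, e3]
    ext i
    fin_cases i
    · simp only [Pi.add_apply, Pi.smul_apply, smul_eq_mul, det2]
      simp
      ring
    · simp only [Pi.add_apply, Pi.smul_apply, smul_eq_mul, det2]
      simp
      ring

end generators

/-! ## The quotient -/

section quotient

variable {H : Type*} [AddCommGroup H] {u v b : H} {p q r : ℕ}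

theorem Rel3.quot (h : Rel3 u v b p q r) :
    Rel2 (QuotientAddGroup.mk' (AddSubgroup.zmultiples b) u)
      (QuotientAddGroup.mk' (AddSubgroup.zmultiples b) v) p q := by
  have hb : QuotientAddGroup.mk' (AddSubgroup.zmultiples b) b = 0 :=
    (QuotientAddGroup.eq_zero_iff b).2 (AddSubgroup.mem_zmultiples b)
  refine ⟨fun y => ?_, fun i j hij => ?_, ?_⟩
  · obtain ⟨x, rfl⟩ := QuotientAddGroup.mk'_surjective _ y
    obtain ⟨i, j, k, rfl⟩ := h.gen x
    refine ⟨i, j, ?_⟩
    rw [map_add, map_add, map_zsmul, map_zsmul, map_zsmul, hb, smul_zero, add_zero]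
  · rw [← map_zsmul, ← map_zsmul, ← map_add] at hij
    have h1 := (QuotientAddGroup.eq_zero_iff _).1 hij
    rw [AddSubgroup.mem_zmultiples_iff] at h1
    obtain ⟨k, hk⟩ := h1
    obtain ⟨t, h2, h3, _⟩ := h.rel i j (-k) (by
      rw [← hk]
      module)
    exact ⟨t, h2, h3⟩
  · rw [← map_zsmul, ← map_zsmul, ← map_add, h.base, map_zsmul, hb, smul_zero]

/-- Small relations only exist for small parameters. -/
theorem Rel3.small (h : Rel3 u v b p q r) (hE : 2 < p + q) {i j k : ℤ}
    (hi : |i| ≤ 1) (hj : |j| ≤ 1) (h0 : i • u + j • v + k • b = 0) (hijk : i ≠ 0 ∨ j ≠ 0 ∨ k ≠ 0) :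
    False := by
  obtain ⟨t, h1, h2, h3⟩ := h.rel i j k h0
  have ht : t ≠ 0 := by
    rintro rfl
    rcases hijk with h' | h' | h'
    · exact h' (by rw [h1]; ring)
    · exact h' (by rw [h2]; ring)
    · exact h' (by rw [h3]; ring)
  have ht1 : 1 ≤ |t| := Int.one_le_abs ht
  have h4 : |i| = |t| * p := by rw [h1, abs_mul, Nat.abs_cast]
  have h5 : |j| = |t| * q := by rw [h2, abs_mul, Nat.abs_cast]
  have h6 : (p : ℤ) ≤ 1 := by nlinarith
  have h7 : (q : ℤ) ≤ 1 := by nlinarith
  omega

end quotient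

theorem edgeBoundary_eq_sum (U S : Finset (Fin 2 → ℤ)) :
    edgeBoundary U S = ∑ w ∈ U ∪ U.image (fun u => -u), ch w S := by
  unfold edgeBoundary ch
  rw [Finset.card_filter, Finset.sum_product_right]
  apply Finset.sum_congr rfl
  intro w _
  rw [Finset.card_filter]

theorem edgeBoundary_eq_tau {u v b u' v' b' : Fin 2 → ℤ} {p q r : ℕ}
    (hu : u' = u ∨ u' = -u) (hv : v' = v ∨ v' = -v) (hb : b' = b ∨ b' = -b)
    (h : Rel3 u' v' b' p q r) (hE : 2 < p + q) (S : Finset (Fin 2 → ℤ)) :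
    edgeBoundary {u, v, b} S = 2 * tau u' v' b' S := by
  rw [edgeBoundary_eq_sum]
  have hU : ({u, v, b} : Finset (Fin 2 → ℤ)) ∪ ({u, v, b} : Finset (Fin 2 → ℤ)).image
      (fun u => -u) = {u', -u', v', -v', b', -b'} := by
    ext x
    simp only [mem_union, mem_image, mem_insert, mem_singleton, exists_eq_or_imp, exists_eq_left]
    rcases hu with rfl | rfl <;> rcases hv with rfl | rfl <;> rcases hb with rfl | rfl <;>
      simp only [neg_neg, eq_comm (a := x)] <;> tauto
  have one : |(1 : ℤ)| ≤ 1 := by norm_num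
  have neg1 : |(-1 : ℤ)| ≤ 1 := by norm_num
  have zero : |(0 : ℤ)| ≤ 1 := by norm_num
  have uv : u' ≠ v' := fun e => h.small hE (i := 1) (j := -1) (k := 0) one neg1
    (by rw [e]; module) (Or.inl one_ne_zero)
  have unv : u' ≠ -v' := fun e => h.small hE (i := 1) (j := 1) (k := 0) one one
    (by rw [e]; module) (Or.inl one_ne_zero)
  have ub : u' ≠ b' := fun e => h.small hE (i := 1) (j := 0) (k := -1) one zero
    (by rw [e]; module) (Or.inl one_ne_zero)
  have unb : u' ≠ -b' := fun e => h.small hE (i := 1) (j := 0) (k := 1) one zero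
    (by rw [e]; module) (Or.inl one_ne_zero)
  have vb : v' ≠ b' := fun e => h.small hE (i := 0) (j := 1) (k := -1) zero one
    (by rw [e]; module) (Or.inr (Or.inl one_ne_zero))
  have vnb : v' ≠ -b' := fun e => h.small hE (i := 0) (j := 1) (k := 1) zero one
    (by rw [e]; module) (Or.inr (Or.inl one_ne_zero))
  have selfneg : ∀ x : Fin 2 → ℤ, x = -x → x = 0 := by
    intro x hx
    funext i
    have := congrFun hx i
    simp only [Pi.neg_apply] at this
    simp only [Pi.zero_apply]
    omega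
  have unu : u' ≠ -u' := fun e => h.small hE (i := 1) (j := 0) (k := 0) one zero
    (by rw [selfneg _ e]; simp) (Or.inl one_ne_zero)
  have vnv : v' ≠ -v' := fun e => h.small hE (i := 0) (j := 1) (k := 0) zero one
    (by rw [selfneg _ e]; simp) (Or.inr (Or.inl one_ne_zero))
  have bnb : b' ≠ -b' := fun e => h.small hE (i := 0) (j := 0) (k := 1) zero zero
    (by rw [selfneg _ e]; simp) (Or.inr (Or.inr one_ne_zero))
  have nuv : -u' ≠ v' := fun e => unv (by rw [← e, neg_neg])
  have nunv : -u' ≠ -v' := fun e => uv (neg_injective e)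
  have nub : -u' ≠ b' := fun e => unb (by rw [← e, neg_neg])
  have nunb : -u' ≠ -b' := fun e => ub (neg_injective e)
  have nvb : -v' ≠ b' := fun e => vnb (by rw [← e, neg_neg])
  have nvnb : -v' ≠ -b' := fun e => vb (neg_injective e)
  rw [hU, sum_insert, sum_insert, sum_insert, sum_insert, sum_insert, sum_singleton,
    ch_neg, ch_neg, ch_neg]
  · unfold tau
    ring
  · rw [mem_singleton]; exact bnb
  · rw [mem_insert, mem_singleton]; push Not; exact ⟨nvb, nvnb⟩
  · rw [mem_insert, mem_insert, mem_singleton]; push Not; exact ⟨vnv, vb, vnb⟩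
  · rw [mem_insert, mem_insert, mem_insert, mem_singleton]; push Not
    exact ⟨nuv, nunv, nub, nunb⟩
  · rw [mem_insert, mem_insert, mem_insert, mem_insert, mem_singleton]; push Not
    exact ⟨unu, uv, unv, ub, unb⟩

theorem sg_smul_cases (x : ℤ) (y : Fin 2 → ℤ) : sg x • y = y ∨ sg x • y = -y := by
  rcases sg_cases x with h | h <;> rw [h]
  · left; simp
  · right; simp

theorem neg_sg_smul_cases (x : ℤ) (y : Fin 2 → ℤ) : -(sg x) • y = y ∨ -(sg x) • y = -y := by
  rcases sg_cases x with h | h <;> rw [h]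
  · right; simp
  · left; simp

/-- **Three generators in the plane.** -/
theorem plane_three (u v b : Fin 2 → ℤ)
    (hgen : AddSubgroup.closure ({u, v, b} : Set (Fin 2 → ℤ)) = ⊤)
    (hE : 30 * (|det2 u v| + 10) ≤ |det2 u b| + |det2 v b|) (e : ℕ ≃ (Fin 2 → ℤ)) :
    ∃ n : ℕ, (n : ℤ) ≤ (|det2 u b| + |det2 v b|) ^ 3 ∧
      ¬ EdgeOptimal {u, v, b} ((range n).image e) := by
  classical
  have h3 := rel3_of_closure hgen
  have hub : |det2 u b| = ((det2 b u).natAbs : ℤ) := by
    have : det2 u b = -det2 b u := by unfold det2; ring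
    rw [this, abs_neg, Int.abs_eq_natAbs]
  have hvb : |det2 v b| = ((det2 v b).natAbs : ℤ) := Int.abs_eq_natAbs _
  have huv : |det2 u v| = ((det2 u v).natAbs : ℤ) := Int.abs_eq_natAbs _
  rw [hub, hvb, huv] at hE
  rw [hub, hvb]
  have hE' : 30 * ((det2 u v).natAbs + 10) ≤ (det2 v b).natAbs + (det2 b u).natAbs := by
    omega
  have hb0 : b ≠ 0 := by
    rintro rfl
    have h1 : det2 v 0 = 0 := by unfold det2; simp
    have h2 : det2 0 u = 0 := by unfold det2; simp
    rw [h1, h2] at hE'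
    simp at hE'
  obtain ⟨b', hb'⟩ : ∃ b', b' = -(sg (det2 u v)) • b := ⟨_, rfl⟩
  have hb'c : b' = b ∨ b' = -b := by
    rw [hb']
    exact neg_sg_smul_cases _ _
  have hb'0 : b' ≠ 0 := by
    rcases hb'c with h | h
    · rw [h]; exact hb0
    · rw [h]; exact neg_ne_zero.2 hb0
  rw [← hb'] at h3
  have hbd := fun S => edgeBoundary_eq_tau (sg_smul_cases _ _) (sg_smul_cases _ _) hb'c h3
    (by omega) S
  -- the height
  have hw : ∀ x : Fin 2 → ℤ, x 0 * b' 0 + x 1 * b' 1 <
      (x + b') 0 * b' 0 + (x + b') 1 * b' 1 := by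
    intro x
    simp only [Pi.add_apply]
    have h1 : 0 < b' 0 * b' 0 + b' 1 * b' 1 := by
      by_contra hle
      push Not at hle
      apply hb'0
      have h2 : b' 0 = 0 := by nlinarith [mul_self_nonneg (b' 0), mul_self_nonneg (b' 1)]
      have h3 : b' 1 = 0 := by nlinarith [mul_self_nonneg (b' 0), mul_self_nonneg (b' 1)]
      funext i
      fin_cases i
      · exact h2
      · exact h3
    nlinarith
  obtain ⟨n, hn1, hn2⟩ := core (QuotientAddGroup.mk' (AddSubgroup.zmultiples b'))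
    ((QuotientAddGroup.eq_zero_iff b').2 (AddSubgroup.mem_zmultiples b')) h3 h3.quot
    (fun x => x 0 * b' 0 + x 1 * b' 1) hw hE' (fun n => (range n).image e)
    (fun n => by rw [card_image_of_injective _ e.injective, card_range])
    (fun n => ⟨e n, by rw [Finset.range_add_one, image_insert]⟩)
  refine ⟨n, ?_, fun hopt => hn2 ?_⟩
  · have : (((det2 v b).natAbs + (det2 b u).natAbs) ^ 3 : ℕ) =
        ((det2 b u).natAbs + (det2 v b).natAbs) ^ 3 := by
      rw [add_comm]
    rw [this] at hn1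
    exact_mod_cast hn1
  · intro T hT
    have := hopt T hT
    rw [hbd, hbd] at this
    omega

end Pool.Agent.Lib.MP_602b76_co_Plane
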